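import Mathlib
import Pool.Agent.X86.DC.Semi

set_option autoImplicit false

/-!
# A distributionally chaotic semigroup with a dense set of null orbits that is not
`f`-distributionally chaotic (MP_8cea72_an, Q1): the claim is false

The semigroup acts on `C₀(ℕ × ℝ≥0)` by `(T(t) y)(i, s) = exp (Λ_i (s + t) - Λ_i s) y(i, s + t)`,
where `Λ_i s = max 0 (2 i - |s - N_i| / J_i)`, `J_i = 64^(i²)`, `N_i = 4^i J_i`.  During the quiet
periods `[N_n + K_n, J_{n+1}]`, `K_n = 2 n J_n`, one has `‖T(t)‖ ≤ e`, so that every orbit tends to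
`0` along them; a suitable orbit is at least `e^i` during `[K_i, N_i]`.
-/

namespace Pool.Agent.Results.MP_8cea72_an.NotFChaotic

open Filter Topology MeasureTheory Set Pool.Agent.X86.DC
open scoped NNReal ENNReal

/-- `(T t)_{t ≥ 0}` is a strongly continuous semigroup of bounded operators. -/
def IsC0Semigroup {𝕜 X : Type} [RCLike 𝕜] [NormedAddCommGroup X] [NormedSpace 𝕜 X]
    (T : ℝ → X →L[𝕜] X) : Prop :=
  T 0 = 1 ∧ (∀ s t, 0 ≤ s → 0 ≤ t → T (s + t) = T s * T t) ∧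
    ∀ x, ContinuousOn (fun t => T t x) (Ici 0)

/-- The class `F`: increasing maps `[0, ∞) → [1, ∞)` with `liminf f(t)/t > 0`. -/
def ClassF (f : ℝ → ℝ) : Prop :=
  StrictMonoOn f (Ici 0) ∧ (∀ t, 0 ≤ t → 1 ≤ f t) ∧
    0 < liminf (fun t : ℝ => ENNReal.ofReal (f t / t)) atTop

/-- The lower `f`-density `liminf m(A ∩ [0, f(t)]) / t`. -/
noncomputable def lowerFDensity (f : ℝ → ℝ) (A : Set ℝ) : ℝ≥0∞ :=
  liminf (fun t : ℝ => volume (A ∩ Icc 0 (f t)) / ENNReal.ofReal t) atTop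

/-- `f`-distributional chaos. -/
def FDistChaotic {𝕜 X : Type} [RCLike 𝕜] [NormedAddCommGroup X] [NormedSpace 𝕜 X] (f : ℝ → ℝ)
    (T : ℝ → X →L[𝕜] X) : Prop :=
  ∃ (S : Set X) (σ : ℝ), ¬ S.Countable ∧ 0 < σ ∧ ∀ x ∈ S, ∀ y ∈ S, x ≠ y →
    lowerFDensity f {t | 0 ≤ t ∧ dist (T t x) (T t y) < σ} = 0 ∧
    ∀ ε : ℝ, 0 < ε → lowerFDensity f {t | 0 ≤ t ∧ ε ≤ dist (T t x) (T t y)} = 0

/-- The density vanishes. -/
lemma density_zero {A : Set ℝ} (a b : ℕ → ℝ) (n₀ : ℕ) (hab : ∀ n, a n * 2 ^ n ≤ 2 * b n)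
    (hb : ∀ n : ℕ, (n : ℝ) ≤ b n) (hA : ∀ n ≥ n₀, A ∩ Icc 0 (b n) ⊆ Icc 0 (a n)) :
    lowerFDensity (fun t => 1 + t) A = 0 := by
  have key : ∀ ε : ℝ, 0 < ε → lowerFDensity (fun t => 1 + t) A ≤ ENNReal.ofReal ε := by
    intro ε hε
    refine liminf_le_of_frequently_le' ?_
    rw [frequently_atTop]
    intro T₀
    obtain ⟨k, hk⟩ := exists_nat_gt (4 / ε)
    obtain ⟨m, hm⟩ := exists_nat_gt (|T₀| + 2)
    set n : ℕ := max n₀ (max k m) with hn
    have hn0 : n₀ ≤ n := le_max_left _ _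
    have hnk : k ≤ n := (le_max_left _ _).trans (le_max_right _ _)
    have hnm : m ≤ n := (le_max_right _ _).trans (le_max_right _ _)
    have hnm' : (m : ℝ) ≤ n := by exact_mod_cast hnm
    have hnk' : (k : ℝ) ≤ n := by exact_mod_cast hnk
    have hbn := hb n
    have habs := le_abs_self T₀
    have habs0 := abs_nonneg T₀
    refine ⟨b n - 1, by linarith, ?_⟩
    have hb2 : 2 ≤ b n := by linarith
    have h2n : (n : ℝ) ≤ 2 ^ n := by exact_mod_cast Nat.lt_two_pow_self.le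
    have hpow : 4 / ε < 2 ^ n := by linarith
    have h2pos : (0 : ℝ) < 2 ^ n := by positivity
    have han : a n ≤ ε * (b n - 1) := by
      rw [div_lt_iff₀ hε] at hpow
      have h5 := hab n
      have h6 : a n * 2 ^ n ≤ (ε * (b n - 1)) * 2 ^ n := by
        have h7 : 2 * b n ≤ 4 * (b n - 1) := by linarith
        nlinarith
      exact le_of_mul_le_mul_right h6 h2pos
    have h8 : volume (A ∩ Icc 0 (1 + (b n - 1))) ≤ ENNReal.ofReal (a n) := by
      have e : (1 : ℝ) + (b n - 1) = b n := by ring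
      rw [e]
      calc volume (A ∩ Icc 0 (b n)) ≤ volume (Icc 0 (a n)) := measure_mono (hA n hn0)
        _ = ENNReal.ofReal (a n) := by rw [Real.volume_Icc, sub_zero]
    refine ENNReal.div_le_of_le_mul ?_
    refine h8.trans ?_
    rw [← ENNReal.ofReal_mul hε.le]
    exact ENNReal.ofReal_le_ofReal han
  refine le_antisymm ?_ (zero_le)
  refine le_of_forall_pos_le_add ?_ |>.trans (le_of_eq (zero_add 0))
  intro ε hε
  rcases eq_or_ne ε ⊤ with h | h
  · rw [h]; exact le_top.trans (by simp)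
  · have h1 : 0 < ε.toReal := ENNReal.toReal_pos hε.ne' h
    have := key ε.toReal h1
    rw [ENNReal.ofReal_toReal h] at this
    exact this.trans (by simp)

/-- The semigroup with real times. -/
noncomputable def TR (𝕜 : Type) [RCLike 𝕜] (t : ℝ) : E 𝕜 →L[𝕜] E 𝕜 := TT 𝕜 t.toNNReal

lemma isSemigroup (𝕜 : Type) [RCLike 𝕜] : IsC0Semigroup (TR 𝕜) := by
  refine ⟨?_, ?_, ?_⟩
  · unfold TR; rw [Real.toNNReal_zero]; exact TT_zero
  · intro s t hs ht
    unfold TR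
    rw [Real.toNNReal_add hs ht]
    exact TT_add _ _
  · intro x
    exact ((continuous_TT x).comp continuous_real_toNNReal).continuousOn

lemma quiet' {𝕜 : Type} [RCLike 𝕜] (y : E 𝕜) {ε : ℝ} (hε : 0 < ε) : ∃ n₀ : ℕ, ∀ n ≥ n₀, ∀ t : ℝ,
    aa n ≤ t → t ≤ bb n → ‖TR 𝕜 t y‖ < ε := by
  obtain ⟨n₀, h⟩ := quiet y hε
  refine ⟨n₀, fun n hn t h1 h2 => ?_⟩
  have ht : 0 ≤ t := (aa_nonneg n).trans h1
  exact h n hn t.toNNReal (by rw [Real.coe_toNNReal t ht]; exact h1)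
    (by rw [Real.coe_toNNReal t ht]; exact h2)

lemma n_le_bb (n : ℕ) : (n : ℝ) ≤ bb n := by
  have := bb_sub_aa n; have := aa_nonneg n; linarith

lemma chaotic (𝕜 : Type) [RCLike 𝕜] : FDistChaotic (fun t => 1 + t) (TR 𝕜) := by
  refine ⟨range fun c : ℝ => (c : 𝕜) • zz 𝕜, 1, ?_, one_pos, ?_⟩
  · intro hc
    have hinj : Function.Injective fun c : ℝ => (c : 𝕜) • zz 𝕜 := by
      intro a b hab
      have h := smul_left_injective 𝕜 (zz_ne_zero (𝕜 := 𝕜)) hab
      exact_mod_cast h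
    have h1 := hc.preimage_of_injOn (f := fun c : ℝ => (c : 𝕜) • zz 𝕜) hinj.injOn
    rw [Set.preimage_range] at h1
    exact not_countable_univ h1
  · rintro _ ⟨c, rfl⟩ _ ⟨c', rfl⟩ hne
    have hcc : c ≠ c' := fun h => hne (by rw [h])
    set g : ℝ := |c - c'| with hg
    have hg0 : 0 < g := abs_pos.2 (sub_ne_zero.2 hcc)
    have hdist : ∀ t, dist (TR 𝕜 t ((c : 𝕜) • zz 𝕜)) (TR 𝕜 t ((c' : 𝕜) • zz 𝕜)) =
        g * ‖TR 𝕜 t (zz 𝕜)‖ := by
      intro t
      have e : TR 𝕜 t ((c : 𝕜) • zz 𝕜) - TR 𝕜 t ((c' : 𝕜) • zz 𝕜) =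
          (((c - c' : ℝ) : 𝕜)) • TR 𝕜 t (zz 𝕜) := by
        rw [← map_sub, ← map_smul]
        congr 1
        ext p
        simp only [ZeroAtInftyContinuousMap.sub_apply, ZeroAtInftyContinuousMap.smul_apply,
          smul_eq_mul]
        push_cast
        ring
      rw [dist_eq_norm, e, norm_smul, RCLike.norm_ofReal]
    constructor
    · obtain ⟨m, hm⟩ := exists_nat_gt (1 / g)
      refine density_zero K N m K_mul n_le_N ?_
      rintro n hn t ⟨⟨ht0, htd⟩, ht⟩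
      refine ⟨ht0, ?_⟩
      by_contra hcon
      push Not at hcon
      rw [hdist] at htd
      have h1 := loud (𝕜 := 𝕜) (i := n) (t := t.toNNReal)
        (by rw [Real.coe_toNNReal t ht0]; exact hcon.le)
        (by rw [Real.coe_toNNReal t ht0]; exact ht.2)
      have h2 : (n : ℝ) ≤ Real.exp n := by have := Real.add_one_le_exp (n : ℝ); linarith
      have h3 : (m : ℝ) ≤ n := by exact_mod_cast hn
      rw [div_lt_iff₀ hg0] at hm
      have h4 : 1 ≤ g * ‖TR 𝕜 t (zz 𝕜)‖ := by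
        have h5 : (m : ℝ) ≤ ‖TR 𝕜 t (zz 𝕜)‖ := by
          unfold TR; linarith
        nlinarith
      linarith
    · intro ε hε
      obtain ⟨n₀, hn₀⟩ := quiet' (zz 𝕜) (ε := ε / g) (by positivity)
      refine density_zero aa bb n₀ aa_mul n_le_bb ?_
      rintro n hn t ⟨⟨ht0, htd⟩, ht⟩
      refine ⟨ht0, ?_⟩
      by_contra hcon
      push Not at hcon
      rw [hdist] at htd
      have h1 := hn₀ n hn t hcon.le ht.2
      rw [lt_div_iff₀ hg0] at h1
      linarith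

/-- The fast function. -/
noncomputable def fast (t : ℝ) : ℝ := bb ⌈t⌉₊ + t

lemma classF_fast : ClassF fast := by
  refine ⟨?_, ?_, ?_⟩
  · intro s _ t _ hst
    unfold fast
    have : bb ⌈s⌉₊ ≤ bb ⌈t⌉₊ := bb_mono (Nat.ceil_mono hst.le)
    linarith
  · intro t ht
    unfold fast
    have : 1 ≤ bb ⌈t⌉₊ := one_le_J _
    linarith
  · refine lt_of_lt_of_le (show (0 : ℝ≥0∞) < 1 by norm_num) ?_
    refine le_liminf_of_le (by isBoundedDefault) ?_
    filter_upwards [eventually_gt_atTop 0] with t ht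
    rw [ENNReal.one_le_ofReal, one_le_div ht]
    unfold fast
    have : 1 ≤ bb ⌈t⌉₊ := one_le_J _
    linarith

lemma not_chaotic (𝕜 : Type) [RCLike 𝕜] : ¬ FDistChaotic fast (TR 𝕜) := by
  rintro ⟨S, σ, hS, hσ, h⟩
  have hns : ¬ S.Subsingleton := fun hs => hS hs.countable
  rw [Set.not_subsingleton_iff] at hns
  obtain ⟨x, hx, y, hy, hxy⟩ := hns
  have h0 := (h x hx y hy hxy).1
  obtain ⟨n₀, hn₀⟩ := quiet' (x - y) hσ
  have h1 : (1 : ℝ≥0∞) ≤ lowerFDensity fast {t | 0 ≤ t ∧ dist (TR 𝕜 t x) (TR 𝕜 t y) < σ} := by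
    refine le_liminf_of_le (by isBoundedDefault) ?_
    filter_upwards [eventually_gt_atTop (n₀ : ℝ)] with t ht
    have ht0 : 0 < t := lt_of_le_of_lt (Nat.cast_nonneg _) ht
    set n := ⌈t⌉₊ with hn
    have hnt : t ≤ n := Nat.le_ceil t
    have hn0 : n₀ ≤ n := by
      have : (n₀ : ℝ) < n := lt_of_lt_of_le ht hnt
      exact_mod_cast this.le
    have hsub : Icc (aa n) (bb n) ⊆
        {t | 0 ≤ t ∧ dist (TR 𝕜 t x) (TR 𝕜 t y) < σ} ∩ Icc 0 (fast t) := by
      intro s hs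
      have hs0 : 0 ≤ s := (aa_nonneg n).trans hs.1
      refine ⟨⟨hs0, ?_⟩, hs0, ?_⟩
      · rw [dist_eq_norm, ← map_sub]
        exact hn₀ n hn0 s hs.1 hs.2
      · unfold fast
        rw [← hn]
        linarith [hs.2]
    rw [ENNReal.le_div_iff_mul_le (Or.inl (by simpa using ht0)) (Or.inl ENNReal.ofReal_ne_top),
      one_mul]
    calc ENNReal.ofReal t ≤ ENNReal.ofReal (bb n - aa n) :=
          ENNReal.ofReal_le_ofReal (hnt.trans (bb_sub_aa n))
      _ = volume (Icc (aa n) (bb n)) := by rw [Real.volume_Icc]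
      _ ≤ _ := measure_mono hsub
  rw [h0] at h1
  exact absurd h1 (by norm_num)

/-- **Answer to MP_8cea72_an, Q1 (disproved).** -/
theorem _root_.Pool.Agent.Results.MP_8cea72_an.NotFChaotic.result (𝕜 : Type) [RCLike 𝕜] :
    ∃ (X : Type) (_ : NormedAddCommGroup X) (_ : NormedSpace 𝕜 X) (_ : CompleteSpace X)
      (T : ℝ → X →L[𝕜] X) (f : ℝ → ℝ),
      IsC0Semigroup T ∧
      (∃ X₀ : Submodule 𝕜 X, Dense (X₀ : Set X) ∧
        ∀ x ∈ X₀, Tendsto (fun t => T t x) atTop (𝓝 0)) ∧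
      FDistChaotic (fun t => 1 + t) T ∧ ClassF f ∧ ¬ FDistChaotic f T := by
  refine ⟨E 𝕜, inferInstance, inferInstance, inferInstance, TR 𝕜, fast, isSemigroup 𝕜, ?_,
    chaotic 𝕜, classF_fast, not_chaotic 𝕜⟩
  refine ⟨X0 𝕜, dense_X0, ?_⟩
  intro x hx
  obtain ⟨L, hL⟩ := TT_X0 hx
  refine tendsto_const_nhds.congr' ?_
  filter_upwards [eventually_ge_atTop (L : ℝ)] with t ht
  unfold TR
  rw [hL]
  exact NNReal.le_toNNReal_of_coe_le ht

end Pool.Agent.Results.MP_8cea72_an.NotFChaotic
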